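import Mathlib

/-!
# Arc-strong spanning subdigraphs: definitions and basic facts

A digraph on the finite vertex type `V` is given by its finite set of arcs `D : Finset (V × V)`.
-/

set_option autoImplicit false

namespace Pool.Agent.BetaK

variable {V : Type*} [Fintype V] [DecidableEq V]

/-- `T` is the arc set of a tournament: there are no loops and for `u ≠ v` exactly one of `(u, v)`
and `(v, u)` is an arc. -/
def IsTournament (T : Finset (V × V)) : Prop :=
  (∀ v : V, (v, v) ∉ T) ∧ ∀ u v : V, u ≠ v → ((u, v) ∈ T ↔ (v, u) ∉ T)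

/-- strongly connected: every vertex can be reached from every vertex along arcs -/
def Strong (D : Finset (V × V)) : Prop :=
  ∀ u v : V, Relation.ReflTransGen (fun x y => (x, y) ∈ D) u v

/-- `k`-arc-strong: deleting any set of at most `k - 1` arcs leaves a strongly connected digraph -/
def ArcStrong (k : ℕ) (D : Finset (V × V)) : Prop :=
  ∀ F : Finset (V × V), F ⊆ D → F.card ≤ k - 1 → Strong (D \ F)

/-- every vertex has out-degree and in-degree at least `k` -/
def MinDeg (k : ℕ) (D : Finset (V × V)) : Prop :=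
  ∀ v : V, k ≤ (D.filter fun a => a.1 = v).card ∧ k ≤ (D.filter fun a => a.2 = v).card

/-- `α_k(T)`: least number of arcs of a spanning subdigraph of `T` with all in-degrees and
out-degrees at least `k` -/
noncomputable def alpha (k : ℕ) (T : Finset (V × V)) : ℕ :=
  sInf {m | ∃ D : Finset (V × V), D ⊆ T ∧ MinDeg k D ∧ D.card = m}

/-- `β_k(T)`: least number of arcs of a `k`-arc-strong spanning subdigraph of `T` -/
noncomputable def beta (k : ℕ) (T : Finset (V × V)) : ℕ :=
  sInf {m | ∃ D : Finset (V × V), D ⊆ T ∧ ArcStrong k D ∧ D.card = m}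

/-- arcs of `D` from `X` to its complement -/
def leaving (D : Finset (V × V)) (X : Finset V) : Finset (V × V) :=
  D.filter fun a => a.1 ∈ X ∧ a.2 ∉ X

theorem cut_of_arcStrong {k : ℕ} {D : Finset (V × V)} (h : ArcStrong k D) {X : Finset V}
    (hX : X.Nonempty) (hX' : X ≠ Finset.univ) : k ≤ (leaving D X).card := by
  by_contra hlt
  push Not at hlt
  obtain ⟨u, hu⟩ := hX
  obtain ⟨v, hv⟩ : ∃ v, v ∉ X := by
    by_contra hcon
    push Not at hcon
    exact hX' (Finset.eq_univ_iff_forall.2 hcon)
  have h1 := h (leaving D X) (Finset.filter_subset _ _) (by omega) u v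
  have key : ∀ w, Relation.ReflTransGen (fun x y => (x, y) ∈ D \ leaving D X) u w → w ∈ X := by
    intro w hw
    induction hw with
    | refl => exact hu
    | @tail b c _ hbc ih =>
      by_contra hc
      rw [Finset.mem_sdiff] at hbc
      exact hbc.2 (Finset.mem_filter.2 ⟨hbc.1, ih, hc⟩)
  exact hv (key v h1)

theorem arcStrong_of_cut {k : ℕ} (hk : 1 ≤ k) {D : Finset (V × V)}
    (h : ∀ X : Finset V, X.Nonempty → X ≠ Finset.univ → k ≤ (leaving D X).card) :
    ArcStrong k D := by
  classical
  intro F _ hF u v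
  by_contra hcon
  let X : Finset V := Finset.univ.filter fun w =>
    Relation.ReflTransGen (fun x y => (x, y) ∈ D \ F) u w
  have hu : u ∈ X := by simp only [X, Finset.mem_filter, Finset.mem_univ, true_and]; exact .refl
  have hv : v ∉ X := by simp only [X, Finset.mem_filter, Finset.mem_univ, true_and]; exact hcon
  have h1 := h X ⟨u, hu⟩ (fun he => hv (he ▸ Finset.mem_univ v))
  have h2 : leaving D X ⊆ F := by
    intro a ha
    obtain ⟨ha1, ha2, ha3⟩ := Finset.mem_filter.1 ha
    by_contra haF
    apply ha3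
    simp only [X, Finset.mem_filter, Finset.mem_univ, true_and] at ha2 ⊢
    exact ha2.tail (by rw [Finset.mem_sdiff]; exact ⟨ha1, haF⟩)
  have h3 := Finset.card_le_card h2
  omega

theorem ArcStrong.mono {k : ℕ} {D T : Finset (V × V)} (hk : 1 ≤ k) (h : ArcStrong k D)
    (hDT : D ⊆ T) : ArcStrong k T := by
  refine arcStrong_of_cut hk fun X h1 h2 => (cut_of_arcStrong h h1 h2).trans ?_
  exact Finset.card_le_card (Finset.filter_subset_filter _ hDT)

theorem minDeg_of_arcStrong {k : ℕ} {D : Finset (V × V)} (h : ArcStrong k D)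
    (hV : 2 ≤ Fintype.card V) : MinDeg k D := by
  intro v
  obtain ⟨w, hw⟩ : ∃ w, w ≠ v := by
    have h1 : 1 < Fintype.card V := hV
    have := Fintype.one_lt_card_iff_nontrivial.1 h1
    exact exists_ne v
  constructor
  · have h1 := cut_of_arcStrong h (X := {v}) ⟨v, by simp⟩
      (fun he => hw (by have := he ▸ Finset.mem_univ w; simpa using this))
    refine h1.trans (Finset.card_le_card fun a ha => ?_)
    obtain ⟨h2, h3, _⟩ := Finset.mem_filter.1 ha
    exact Finset.mem_filter.2 ⟨h2, by simpa using h3⟩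
  · have h1 := cut_of_arcStrong h (X := Finset.univ.erase v) ⟨w, by simp [hw]⟩
      (fun he => by have := he ▸ Finset.mem_univ v; simp at this)
    refine h1.trans (Finset.card_le_card fun a ha => ?_)
    obtain ⟨h2, _, h3⟩ := Finset.mem_filter.1 ha
    exact Finset.mem_filter.2 ⟨h2, by simpa using h3⟩

/-- `k` arc-disjoint spanning out-branchings and `k` arc-disjoint spanning in-branchings rooted at
`r` certify that `D` is `k`-arc-strong. -/
theorem arcStrong_of_branchings {k : ℕ} (hk : 1 ≤ k) {D : Finset (V × V)} (r : V)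
    (p q : Fin k → V → V) (dp dq : Fin k → V → ℕ)
    (hp : ∀ i v, v ≠ r → (p i v, v) ∈ D ∧ dp i (p i v) < dp i v)
    (hq : ∀ i v, v ≠ r → (v, q i v) ∈ D ∧ dq i (q i v) < dq i v)
    (hp' : ∀ i j v, v ≠ r → p i v = p j v → i = j)
    (hq' : ∀ i j v, v ≠ r → q i v = q j v → i = j) : ArcStrong k D := by
  refine arcStrong_of_cut hk fun X h1 h2 => ?_
  by_cases hr : r ∈ X
  · have hne : (Finset.univ \ X).Nonempty := by
      rw [Finset.sdiff_nonempty]
      exact fun h => h2 (Finset.univ_subset_iff.1 h)
    have hmin : ∀ i : Fin k, ∃ v, v ∉ X ∧ p i v ∈ X := by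
      intro i
      obtain ⟨v, hv, hv'⟩ := Finset.exists_min_image _ (dp i) hne
      have hvX : v ∉ X := by simpa using hv
      refine ⟨v, hvX, ?_⟩
      by_contra hpX
      have h3 := hp i v (fun h => hvX (h ▸ hr))
      have h4 := hv' (p i v) (by simp [hpX])
      omega
    choose f hf1 hf2 using hmin
    calc k = (Finset.univ : Finset (Fin k)).card := by simp
      _ ≤ (leaving D X).card := by
        refine Finset.card_le_card_of_injOn (fun i => (p i (f i), f i)) ?_ ?_
        · intro i _
          have h3 := hp i (f i) (fun h => hf1 i (h ▸ hr))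
          exact Finset.mem_filter.2 ⟨h3.1, hf2 i, hf1 i⟩
        · intro i _ j _ hij
          simp only [Prod.mk.injEq] at hij
          obtain ⟨h3, h4⟩ := hij
          rw [← h4] at h3
          exact hp' i j (f i) (fun h => hf1 i (h ▸ hr)) h3
  · have hmin : ∀ i : Fin k, ∃ v, v ∈ X ∧ q i v ∉ X := by
      intro i
      obtain ⟨v, hv, hv'⟩ := Finset.exists_min_image _ (dq i) h1
      refine ⟨v, hv, ?_⟩
      intro hqX
      have h3 := hq i v (fun h => hr (h ▸ hv))
      have h4 := hv' (q i v) hqX
      omega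
    choose f hf1 hf2 using hmin
    calc k = (Finset.univ : Finset (Fin k)).card := by simp
      _ ≤ (leaving D X).card := by
        refine Finset.card_le_card_of_injOn (fun i => (f i, q i (f i))) ?_ ?_
        · intro i _
          have h3 := hq i (f i) (fun h => hr (h ▸ hf1 i))
          exact Finset.mem_filter.2 ⟨h3.1, hf1 i, hf2 i⟩
        · intro i _ j _ hij
          simp only [Prod.mk.injEq] at hij
          obtain ⟨h4, h3⟩ := hij
          rw [← h4] at h3
          exact hq' i j (f i) (fun h => hr (h ▸ hf1 i)) h3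

omit [Fintype V] in
/-- The dual bound: an extra arc of `D` outside `(A × V) ∪ (V × B)` costs one. -/
theorem dual_bound {k : ℕ} {D T : Finset (V × V)} (hDT : D ⊆ T) (hD : MinDeg k D)
    (A B : Finset V) (E : Finset (V × V)) (hE : E ⊆ D)
    (hE' : ∀ a ∈ E, a.1 ∉ A ∧ a.2 ∉ B) :
    k * A.card + k * B.card + E.card ≤ D.card + (T.filter fun a => a.1 ∈ A ∧ a.2 ∈ B).card := by
  have h1 : k * A.card ≤ (D.filter fun a => a.1 ∈ A).card := by
    have h : (D.filter fun a => a.1 ∈ A).card =
        ∑ v ∈ A, ((D.filter fun a => a.1 ∈ A).filter fun a => a.1 = v).card :=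
      Finset.card_eq_sum_card_fiberwise (fun a ha => (Finset.mem_filter.1 ha).2)
    rw [h, mul_comm, ← smul_eq_mul]
    refine Finset.card_nsmul_le_sum _ _ _ fun v hv => (hD v).1.trans ?_
    refine Finset.card_le_card fun a ha => ?_
    obtain ⟨h2, h3⟩ := Finset.mem_filter.1 ha
    exact Finset.mem_filter.2 ⟨Finset.mem_filter.2 ⟨h2, h3 ▸ hv⟩, h3⟩
  have h2 : k * B.card ≤ (D.filter fun a => a.2 ∈ B).card := by
    have h : (D.filter fun a => a.2 ∈ B).card =
        ∑ v ∈ B, ((D.filter fun a => a.2 ∈ B).filter fun a => a.2 = v).card :=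
      Finset.card_eq_sum_card_fiberwise (fun a ha => (Finset.mem_filter.1 ha).2)
    rw [h, mul_comm, ← smul_eq_mul]
    refine Finset.card_nsmul_le_sum _ _ _ fun v hv => (hD v).2.trans ?_
    refine Finset.card_le_card fun a ha => ?_
    obtain ⟨h2, h3⟩ := Finset.mem_filter.1 ha
    exact Finset.mem_filter.2 ⟨Finset.mem_filter.2 ⟨h2, h3 ▸ hv⟩, h3⟩
  have h3 : (D.filter fun a => a.1 ∈ A).card + (D.filter fun a => a.2 ∈ B).card =
      ((D.filter fun a => a.1 ∈ A) ∪ (D.filter fun a => a.2 ∈ B)).card +
      ((D.filter fun a => a.1 ∈ A) ∩ (D.filter fun a => a.2 ∈ B)).card :=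
    (Finset.card_union_add_card_inter _ _).symm
  have h4 : ((D.filter fun a => a.1 ∈ A) ∩ (D.filter fun a => a.2 ∈ B)).card ≤
      (T.filter fun a => a.1 ∈ A ∧ a.2 ∈ B).card := by
    refine Finset.card_le_card fun a ha => ?_
    obtain ⟨h5, h6⟩ := Finset.mem_inter.1 ha
    obtain ⟨h7, h8⟩ := Finset.mem_filter.1 h5
    obtain ⟨_, h9⟩ := Finset.mem_filter.1 h6
    exact Finset.mem_filter.2 ⟨hDT h7, h8, h9⟩
  have h5 : ((D.filter fun a => a.1 ∈ A) ∪ (D.filter fun a => a.2 ∈ B)).card + E.card ≤
      D.card := by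
    rw [← Finset.card_union_of_disjoint]
    · refine Finset.card_le_card fun a ha => ?_
      rcases Finset.mem_union.1 ha with ha | ha
      · rcases Finset.mem_union.1 ha with ha | ha
        · exact (Finset.mem_filter.1 ha).1
        · exact (Finset.mem_filter.1 ha).1
      · exact hE ha
    · rw [Finset.disjoint_left]
      intro a ha ha'
      rcases Finset.mem_union.1 ha with ha | ha
      · exact (hE' a ha').1 (Finset.mem_filter.1 ha).2
      · exact (hE' a ha').2 (Finset.mem_filter.1 ha).2
  omega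

end Pool.Agent.BetaK
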