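import Pool.Agent.BetaK.Data

/-!
# The finite checks for the example on 60 vertices
-/

set_option autoImplicit false
set_option maxRecDepth 100000

namespace Pool.Agent.BetaK

/-- adjacency read off a list of rows given as bit masks -/
def adj (rows : List ℕ) (i j : ℕ) : Bool := (rows.getD i 0).testBit j

/-- the arc set described by a list of rows given as bit masks -/
def arcsOf (rows : List ℕ) : Finset (Fin 60 × Fin 60) :=
  Finset.univ.filter fun a => adj rows a.1 a.2 = true

theorem mem_arcsOf {rows : List ℕ} {a : Fin 60 × Fin 60} :
    a ∈ arcsOf rows ↔ adj rows a.1 a.2 = true := by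
  simp [arcsOf]

/-- in-range list of all vertices -/
def vs : List ℕ := List.range 60

/-- number of arcs of a set of rows, counted row by row among pairs satisfying `P` -/
def countArcs (rows : List ℕ) (P : ℕ → ℕ → Bool) : ℕ :=
  (vs.map fun i => (vs.filter fun j => adj rows i j && P i j).length).sum

theorem card_filter_fin (P : ℕ → Bool) :
    (Finset.univ.filter fun j : Fin 60 => P j = true).card = (vs.filter P).length := by
  rw [Finset.card_filter]
  rw [Fin.sum_univ_eq_sum_range (fun i => if P i = true then 1 else 0) 60]
  rw [← Finset.card_filter]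
  rw [vs, ← List.toFinset_card_of_nodup ((List.nodup_range (n := 60)).filter P)]
  congr 1
  ext x
  simp

theorem card_filter_arcsOf (rows : List ℕ) (P : ℕ → ℕ → Bool) :
    ((arcsOf rows).filter fun a => P a.1 a.2 = true).card = countArcs rows P := by
  rw [arcsOf, Finset.filter_filter, Finset.card_filter, Fintype.sum_prod_type]
  have h : ∀ i : Fin 60, (∑ j : Fin 60, if (adj rows i j = true ∧ P i j = true) then 1 else 0) =
      (fun i : ℕ => (vs.filter fun j => adj rows i j && P i j).length) i := by
    intro i
    rw [← Finset.card_filter]
    show _ = (vs.filter fun j => adj rows i j && P i j).length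
    rw [← card_filter_fin (fun j => adj rows i j && P i j)]
    simp only [Bool.and_eq_true]
  rw [Finset.sum_congr rfl fun i _ => h i]
  rw [Fin.sum_univ_eq_sum_range
    (fun i : ℕ => (vs.filter fun j => adj rows i j && P i j).length) 60]
  rfl

/-- a Boolean check for all pairs -/
theorem all_pairs {P : ℕ → ℕ → Bool} (h : (vs.all fun i => vs.all fun j => P i j) = true)
    (i j : Fin 60) : P i j = true := by
  rw [List.all_eq_true] at h
  have h1 := h i (by simp [vs])
  rw [List.all_eq_true] at h1
  exact h1 j (by simp [vs])

/-- a Boolean check for all vertices -/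
theorem all_vertices {P : ℕ → Bool} (h : (vs.all P) = true) (i : Fin 60) : P i = true := by
  rw [List.all_eq_true] at h
  exact h i (by simp [vs])

/-! ### the tournament and its subdigraphs -/

theorem tournament_check : (vs.all fun i => vs.all fun j =>
    adj rowsT i j == (!(i == j) && !adj rowsT j i)) = true := by decide +kernel

theorem isTournament_T : IsTournament (arcsOf rowsT) := by
  constructor
  · intro v hv
    have h := all_pairs tournament_check v v
    rw [mem_arcsOf] at hv
    simp [hv] at h
  · intro u v huv
    have h := all_pairs tournament_check u v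
    rw [mem_arcsOf, mem_arcsOf]
    have h1 : ((u : ℕ) == (v : ℕ)) = false := by
      rw [beq_eq_false_iff_ne]
      exact fun h => huv (Fin.ext h)
    simp only [h1, Bool.not_false, Bool.true_and, beq_iff_eq] at h
    simp only [h]
    cases adj rowsT v u <;> simp

theorem sub_check_A : (vs.all fun i => vs.all fun j =>
    (!adj rowsA i j || adj rowsT i j)) = true := by decide +kernel

theorem sub_check_B : (vs.all fun i => vs.all fun j =>
    (!adj rowsB i j || adj rowsT i j)) = true := by decide +kernel

theorem sub_A : arcsOf rowsA ⊆ arcsOf rowsT := by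
  intro a ha
  rw [mem_arcsOf] at ha ⊢
  have h := all_pairs sub_check_A a.1 a.2
  rw [ha] at h
  simpa using h

theorem sub_B : arcsOf rowsB ⊆ arcsOf rowsT := by
  intro a ha
  rw [mem_arcsOf] at ha ⊢
  have h := all_pairs sub_check_B a.1 a.2
  rw [ha] at h
  simpa using h

theorem card_A : (arcsOf rowsA).card = 702 := by
  have h := card_filter_arcsOf rowsA (fun _ _ => true)
  rw [Finset.filter_true_of_mem (by simp)] at h
  rw [h]
  decide +kernel

theorem card_B : (arcsOf rowsB).card = 703 := by
  have h := card_filter_arcsOf rowsB (fun _ _ => true)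
  rw [Finset.filter_true_of_mem (by simp)] at h
  rw [h]
  decide +kernel

theorem deg_check_A : (vs.all fun v =>
    (Nat.ble 11 (vs.filter fun j => adj rowsA v j).length &&
      Nat.ble 11 (vs.filter fun j => adj rowsA j v).length)) = true := by decide +kernel

theorem minDeg_A : MinDeg 11 (arcsOf rowsA) := by
  intro v
  have h := all_vertices deg_check_A v
  rw [Bool.and_eq_true, Nat.ble_eq, Nat.ble_eq] at h
  constructor
  · refine h.1.trans ?_
    rw [← card_filter_fin (fun j => adj rowsA v j)]
    refine Finset.card_le_card_of_injOn (fun j => (v, j)) ?_ ?_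
    · intro j hj
      simp only [Finset.coe_filter, Finset.mem_univ, true_and, Set.mem_ofPred_eq] at hj ⊢
      exact ⟨mem_arcsOf.2 hj, trivial⟩
    · intro i _ j _ hij
      simpa using hij
  · refine h.2.trans ?_
    rw [← card_filter_fin (fun j => adj rowsA j v)]
    refine Finset.card_le_card_of_injOn (fun j => (j, v)) ?_ ?_
    · intro j hj
      simp only [Finset.coe_filter, Finset.mem_univ, true_and, Set.mem_ofPred_eq] at hj ⊢
      exact ⟨mem_arcsOf.2 hj, trivial⟩
    · intro i _ j _ hij
      simpa using hij

/-! ### the dual certificate -/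

/-- bit mask of the set `A` of the dual certificate -/
def inA (i : ℕ) : Bool := Nat.ble 23 i && !(i == 29)

/-- bit mask of the set `B` of the dual certificate -/
def inB (i : ℕ) : Bool := Nat.ble i 36 && !(i == 30)

/-- the vertex set of the dual certificate for the out-degrees -/
def setA : Finset (Fin 60) := Finset.univ.filter fun i => inA i = true

/-- the vertex set of the dual certificate for the in-degrees -/
def setB : Finset (Fin 60) := Finset.univ.filter fun i => inB i = true

theorem card_setA : setA.card = 36 := by
  rw [setA, card_filter_fin]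
  decide +kernel

theorem card_setB : setB.card = 36 := by
  rw [setB, card_filter_fin]
  decide +kernel

theorem eT_AB : ((arcsOf rowsT).filter fun a => a.1 ∈ setA ∧ a.2 ∈ setB).card = 90 := by
  have h := card_filter_arcsOf rowsT (fun i j => inA i && inB j)
  have h1 : countArcs rowsT (fun i j => inA i && inB j) = 90 := by decide +kernel
  rw [h1] at h
  rw [← h]
  refine congrArg Finset.card (Finset.filter_congr fun a _ => ?_)
  simp [setA, setB]

/-! ### the cut -/

/-- the cut set, as a Boolean function -/
def inX (i : ℕ) : Bool := (i == 29) || Nat.ble 31 i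

/-- the cut set -/
def setX : Finset (Fin 60) := Finset.univ.filter fun i => inX i = true

theorem mem_setX {v : Fin 60} : v ∈ setX ↔ inX v = true := by simp [setX]

theorem leaving_X : (leaving (arcsOf rowsT) setX).card = 11 := by
  have h := card_filter_arcsOf rowsT (fun i j => inX i && !inX j)
  have h1 : countArcs rowsT (fun i j => inX i && !inX j) = 11 := by decide +kernel
  rw [h1] at h
  rw [← h, leaving]
  refine congrArg Finset.card (Finset.filter_congr fun a _ => ?_)
  simp [setX]

theorem special_mem : ((29 : Fin 60), (30 : Fin 60)) ∈ leaving (arcsOf rowsT) setX := by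
  rw [leaving, Finset.mem_filter, mem_arcsOf, mem_setX, mem_setX]
  decide +kernel

/-! ### the branchings -/

/-- an entry of a table -/
def entry (L : List (List ℕ)) (i v : ℕ) : ℕ := (L.getD i []).getD v 0

/-- an entry of a table as a vertex -/
def ventry (L : List (List ℕ)) (i : Fin 11) (v : Fin 60) : Fin 60 := Fin.ofNat 60 (entry L i v)

/-- check of the out-branchings and the in-branchings -/
theorem branch_check : ((List.range 11).all fun i => vs.all fun v =>
    (v == 0) || ((Nat.blt (entry outPar i v) 60 && adj rowsB (entry outPar i v) v &&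
      Nat.blt (entry outDep i (entry outPar i v)) (entry outDep i v)) &&
     (Nat.blt (entry inPar i v) 60 && adj rowsB v (entry inPar i v) &&
      Nat.blt (entry inDep i (entry inPar i v)) (entry inDep i v)))) = true := by decide +kernel

/-- the branchings are arc-disjoint -/
theorem disj_check : ((List.range 11).all fun i => (List.range 11).all fun j => vs.all fun v =>
    (v == 0) || (i == j) || (!(entry outPar i v == entry outPar j v) &&
      !(entry inPar i v == entry inPar j v))) = true := by decide +kernel

theorem branch_facts (i : Fin 11) (v : Fin 60) (hv : v ≠ 0) :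
    ((entry outPar i v < 60 ∧ adj rowsB (entry outPar i v) v = true) ∧
      entry outDep i (entry outPar i v) < entry outDep i v) ∧
    ((entry inPar i v < 60 ∧ adj rowsB v (entry inPar i v) = true) ∧
      entry inDep i (entry inPar i v) < entry inDep i v) := by
  have h := branch_check
  rw [List.all_eq_true] at h
  have h1 := h i (by simp)
  rw [List.all_eq_true] at h1
  have h2 := h1 v (by simp [vs])
  have h3 : ((v : ℕ) == 0) = false := by
    rw [beq_eq_false_iff_ne]
    exact fun h => hv (Fin.ext h)
  rw [h3, Bool.false_or] at h2
  simpa only [Bool.and_eq_true, Nat.blt_eq] using h2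

theorem disj_facts (i j : Fin 11) (v : Fin 60) (hv : v ≠ 0) (hij : i ≠ j) :
    entry outPar i v ≠ entry outPar j v ∧ entry inPar i v ≠ entry inPar j v := by
  have h := disj_check
  rw [List.all_eq_true] at h
  have h1 := h i (by simp)
  rw [List.all_eq_true] at h1
  have h1 := h1 j (by simp)
  rw [List.all_eq_true] at h1
  have h2 := h1 v (by simp [vs])
  have h3 : ((v : ℕ) == 0) = false := by
    rw [beq_eq_false_iff_ne]
    exact fun h => hv (Fin.ext h)
  have h4 : ((i : ℕ) == (j : ℕ)) = false := by
    rw [beq_eq_false_iff_ne]
    exact fun h => hij (Fin.ext h)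
  rw [h3, h4, Bool.false_or, Bool.false_or] at h2
  simpa using h2

theorem ventry_val {L : List (List ℕ)} {i : Fin 11} {v : Fin 60} (h : entry L i v < 60) :
    ((ventry L i v : Fin 60) : ℕ) = entry L i v := by
  simp [ventry, Nat.mod_eq_of_lt h]

theorem arcStrong_B : ArcStrong 11 (arcsOf rowsB) := by
  refine arcStrong_of_branchings (by norm_num) (0 : Fin 60) (fun i v => ventry outPar i v)
    (fun i v => ventry inPar i v) (fun i v => entry outDep i v) (fun i v => entry inDep i v)
    ?_ ?_ ?_ ?_
  · intro i v hv
    obtain ⟨⟨⟨h1, h2⟩, h3⟩, _⟩ := branch_facts i v hv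
    simp only [mem_arcsOf, ventry_val h1]
    exact ⟨h2, h3⟩
  · intro i v hv
    obtain ⟨_, ⟨h1, h2⟩, h3⟩ := branch_facts i v hv
    simp only [mem_arcsOf, ventry_val h1]
    exact ⟨h2, h3⟩
  · intro i j v hv hij
    by_contra hne
    obtain ⟨⟨⟨h1, _⟩, _⟩, _⟩ := branch_facts i v hv
    obtain ⟨⟨⟨h2, _⟩, _⟩, _⟩ := branch_facts j v hv
    have h := congrArg Fin.val hij
    rw [ventry_val h1, ventry_val h2] at h
    exact (disj_facts i j v hv hne).1 h
  · intro i j v hv hij
    by_contra hne
    obtain ⟨_, ⟨h1, _⟩, _⟩ := branch_facts i v hv
    obtain ⟨_, ⟨h2, _⟩, _⟩ := branch_facts j v hv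
    have h := congrArg Fin.val hij
    rw [ventry_val h1, ventry_val h2] at h
    exact (disj_facts i j v hv hne).2 h

end Pool.Agent.BetaK
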